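import Pool.Agent.Work.MP_41a91a_an.Defs

set_option autoImplicit false

namespace Pool.Agent.Work.MP_41a91a_an.Hedge

open scoped Uniformity

/-- Two different points in one fibre of `f` are never proximal: they stay apart at all times. -/
def IsDistalExt {Y X : Type} [UniformSpace Y] (S : Y ≃ₜ Y) (f : Y → X) : Prop :=
  ∀ y y', f y = f y' → y ≠ y' → ∃ ε ∈ 𝓤 Y, ∀ n : ℤ, ((S ^ n) y, (S ^ n) y') ∉ ε

end Pool.Agent.Work.MP_41a91a_an.Hedge
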