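import Mathlib
import Pool.Agent.Work.MP_41a91a_an.Tower
import Pool.Agent.Work.MP_41a91a_an.Hedge.Defs

-- merged part: Pool.Agent.Work.MP_41a91a_an.Hedge.Haar
section
set_option autoImplicit false
set_option linter.unusedSectionVars false

namespace Pool.Agent.Work.MP_41a91a_an.Hedge

open Set Filter Topology MeasureTheory
open scoped symmDiff

/-- Positivity of the measure of a finite intersection persists under small moves in measure. -/
theorem ev_ne_zero {Ω P ι : Type} [MeasurableSpace Ω] (ρ : Measure Ω) (l : Filter P)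
    (I : Finset ι) (E : ι → P → Set Ω) (E0 : ι → Set Ω)
    (h : ∀ i ∈ I, Tendsto (fun p => ρ (E i p ∆ E0 i)) l (𝓝 0))
    (h0 : ρ {w | ∀ i ∈ I, w ∈ E0 i} ≠ 0) : ∀ᶠ p in l, ρ {w | ∀ i ∈ I, w ∈ E i p} ≠ 0 := by
  have hs : Tendsto (fun p => ∑ i ∈ I, ρ (E i p ∆ E0 i)) l (𝓝 0) := by
    have := tendsto_finsetSum I h
    simpa using this
  filter_upwards [hs.eventually (gt_mem_nhds (pos_iff_ne_zero.2 h0))] with p hp hz
  have hsub : {w | ∀ i ∈ I, w ∈ E0 i} ⊆
      {w | ∀ i ∈ I, w ∈ E i p} ∪ ⋃ i ∈ I, E i p ∆ E0 i := by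
    intro w hw
    by_cases hw' : ∀ i ∈ I, w ∈ E i p
    · exact Or.inl hw'
    · push Not at hw'
      obtain ⟨i, hi, hwi⟩ := hw'
      exact Or.inr (mem_iUnion₂.2 ⟨i, hi, Or.inr ⟨hw i hi, hwi⟩⟩)
  have := (measure_mono hsub).trans (measure_union_le (μ := ρ) _ _)
  rw [hz, zero_add] at this
  exact absurd (this.trans (measure_biUnion_finset_le I _)) (not_le.2 hp)

section
variable {G : Type} [AddCommGroup G] [MetricSpace G] [IsTopologicalAddGroup G] [CompactSpace G]

/-- In a monothetic compact group the multiples `c • t` fill a neighbourhood of zero. -/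
theorem range_mem_nhds {a : G} (ha : DenseRange fun n : ℤ => n • a) {c : ℤ} (hc : c ≠ 0) :
    ∀ᶠ g in 𝓝 (0 : G), ∃ t : G, g = c • t := by
  let H : AddSubgroup G := (zsmulAddGroupHom c : G →+ G).range
  have hH : IsClosed (H : Set G) := by
    have : (H : Set G) = range fun t : G => c • t := by
      ext g; simp [H]
    rw [this]
    exact (isCompact_range (continuous_const_smul c)).isClosed
  let f : Fin c.natAbs → Set G := fun r => {g | g - (r.val : ℤ) • a ∈ H}
  have hf : ∀ r, IsClosed (f r) := fun r => hH.preimage (continuous_sub_right _)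
  have hU : ⋃ r, f r = univ := by
    refine eq_univ_of_univ_subset ?_
    rw [← ha.closure_range]
    refine closure_minimal ?_ (isClosed_iUnion_of_finite hf)
    rintro _ ⟨n, rfl⟩
    have h1 := Int.emod_nonneg n hc
    have h2 := Int.emod_lt_abs n hc
    have h3 := Int.mul_ediv_add_emod n c
    refine mem_iUnion.2 ⟨⟨(n % c).toNat, ?_⟩, ?_⟩
    · rw [Int.abs_eq_natAbs] at h2; omega
    · show n • a - (((n % c).toNat : ℕ) : ℤ) • a ∈ H
      rw [Int.toNat_of_nonneg h1, ← sub_smul]
      refine ⟨(n / c) • a, ?_⟩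
      show c • (n / c) • a = _
      rw [← mul_smul]
      congr 1
      linarith
  obtain ⟨r, g, hg⟩ := nonempty_interior_of_iUnion_of_closed hf hU
  have hn : (H : Set G) ∈ 𝓝 (g - (r.val : ℤ) • a) := by
    have h1 : f r ∈ 𝓝 g := mem_interior_iff_mem_nhds.1 hg
    have h2 : Tendsto (fun x : G => x + (r.val : ℤ) • a) (𝓝 (g - (r.val : ℤ) • a)) (𝓝 g) := by
      have := (continuous_add_const ((r.val : ℤ) • a)).tendsto (g - (r.val : ℤ) • a)
      simpa using this
    filter_upwards [h2 h1] with x hx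
    simpa [f] using hx
  filter_upwards [(H.isOpen_of_mem_nhds hn).mem_nhds H.zero_mem] with x hx
  obtain ⟨t, ht⟩ := hx
  exact ⟨t, ht.symm⟩

variable [MeasurableSpace G] [BorelSpace G]

/-- A finite measure invariant under a topological generator is translation invariant. -/
theorem inv_of_dense {a : G} (ha : DenseRange fun n : ℤ => n • a) (ν : Measure G)
    [IsFiniteMeasure ν] (h : ν.map (· + a) = ν) : ν.IsAddLeftInvariant := by
  have hm : ∀ g : G, Measurable (fun x : G => g + x) := fun g => measurable_const_add g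
  let K : AddSubgroup G :=
    { carrier := {g | ν.map (g + ·) = ν}
      zero_mem' := by simp
      add_mem' := by
        intro g g' hg hg'
        have hg1 : ν.map (g + ·) = ν := hg
        have hg2 : ν.map (g' + ·) = ν := hg'
        show ν.map (g + g' + ·) = ν
        have : (fun x => g + g' + x) = (fun x => g + x) ∘ (fun x => g' + x) := by
          funext x; simp [add_assoc]
        rw [this, ← Measure.map_map (hm g) (hm g'), hg2, hg1]
      neg_mem' := by
        intro g hg
        have hg1 : ν.map (g + ·) = ν := hg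
        show ν.map (-g + ·) = ν
        conv_lhs => rw [← hg1]
        rw [Measure.map_map (hm _) (hm _)]
        have : ((fun x => -g + x) ∘ fun x => g + x) = id := by
          funext x; simp
        rw [this, Measure.map_id] }
  have haK : a ∈ K := by
    show ν.map (a + ·) = ν
    have : (fun x => a + x) = fun x => x + a := by funext x; exact add_comm _ _
    rw [this, h]
  have hcl : IsClosed (K : Set G) := by
    have : (K : Set G) = ⋂ f : BoundedContinuousFunction G ℝ,
        {g | ∫ x, f (g + x) ∂ν = ∫ x, f x ∂ν} := by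
      ext g
      rw [mem_iInter]
      constructor
      · intro hg f
        have hg1 : ν.map (g + ·) = ν := hg
        show ∫ x, f (g + x) ∂ν = ∫ x, f x ∂ν
        conv_rhs => rw [← hg1]
        rw [integral_map (hm g).aemeasurable f.continuous.aestronglyMeasurable]
      · intro hg
        show ν.map (g + ·) = ν
        refine ext_of_forall_integral_eq_of_IsFiniteMeasure fun f => ?_
        rw [integral_map (hm g).aemeasurable f.continuous.aestronglyMeasurable]
        exact hg f
    rw [this]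
    refine isClosed_iInter fun f => isClosed_eq ?_ continuous_const
    have := continuous_parametric_integral_of_continuous (μ := ν)
      (f := fun g x : G => f (g + x)) (f.continuous.comp continuous_add) isCompact_univ
    simpa using this
  refine ⟨fun g => ?_⟩
  have : g ∈ (K : Set G) := by
    refine closure_minimal ?_ hcl (ha g)
    rintro _ ⟨n, rfl⟩
    exact K.zsmul_mem haK n
  exact this

variable (ν : Measure G) [IsProbabilityMeasure ν] [ν.IsAddLeftInvariant]

theorem tend_base (i : ℤ) {A : Set G} (hA : MeasurableSet A) :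
    Tendsto (fun m : G => ν ({g | g + i • m ∈ A} ∆ A)) (𝓝 0) (𝓝 0) := by
  let F : C(G, C(G, G)) := ContinuousMap.curry ⟨fun p : G × G => p.2 + i • p.1, by fun_prop⟩
  have hF : ∀ m, MeasurePreserving (F m) ν ν := fun m => measurePreserving_add_right ν (i • m)
  have := tendsto_measure_symmDiff_preimage_nhds_zero (μ := ν) (ν := ν) (F.continuous.tendsto 0)
    (Eventually.of_forall hF) (hF 0) hA.nullMeasurableSet (measure_ne_top _ _)
  have e : (F 0) ⁻¹' A = A := by
    ext g; simp [F]
  rw [e] at this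
  exact this

theorem tend_step {a : G} (ha : DenseRange fun n : ℤ => n • a) {c : ℤ} (hc : c ≠ 0) (b : G)
    {A : Set G} (hA : MeasurableSet A) :
    Tendsto (fun b' : G => ν ({m | b' + c • m ∈ A} ∆ {m | b + c • m ∈ A})) (𝓝 b) (𝓝 0) := by
  obtain ⟨F, hFa⟩ : ∃ F : C(G, C(G, G)), ∀ x m, F x m = x + c • m :=
    ⟨ContinuousMap.curry ⟨fun p : G × G => p.1 + c • p.2, by fun_prop⟩, fun _ _ => rfl⟩
  obtain ⟨ρ, hρ, h0⟩ : ∃ ρ : Measure G, IsFiniteMeasure ρ ∧ MeasurePreserving (F b) ν ρ :=
    ⟨ν.map (F b), inferInstance, (F b).continuous.measurable, rfl⟩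
  have hF : ∀ᶠ b' in 𝓝 b, MeasurePreserving (F b') ν ρ := by
    have h2 : Tendsto (fun x : G => x - b) (𝓝 b) (𝓝 0) := by
      have := (continuous_sub_right b).tendsto b
      simpa using this
    filter_upwards [h2.eventually (range_mem_nhds ha hc)] with b' hb'
    obtain ⟨t, ht⟩ := hb'
    have e : (F b' : G → G) = (F b) ∘ (t + ·) := by
      funext m
      rw [Function.comp_apply, hFa, hFa, smul_add, ← ht]; abel
    rw [e]
    exact h0.comp (measurePreserving_add_left ν t)
  have h3 := tendsto_measure_symmDiff_preimage_nhds_zero (μ := ν) (ν := ρ)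
    (F.continuous.tendsto b) hF h0 hA.nullMeasurableSet (measure_ne_top _ _)
  have e : ∀ x, (F x) ⁻¹' A = {m | x + c • m ∈ A} := fun x => by
    ext m; simp [hFa]
  simpa only [e] using h3

theorem openPos : ν.IsOpenPosMeasure :=
  isOpenPosMeasure_of_addLeftInvariant_of_compact univ isCompact_univ (by simp)

theorem meas_pat (I : Finset ℤ) (c : ℤ → ℤ) {A : ℤ → Set G} (hA : ∀ i, MeasurableSet (A i)) :
    MeasurableSet {p : G × G | ∀ i ∈ I, p.2 + c i • p.1 ∈ A i} := by
  have : {p : G × G | ∀ i ∈ I, p.2 + c i • p.1 ∈ A i} =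
      ⋂ i ∈ I, (fun p : G × G => p.2 + c i • p.1) ⁻¹' A i := by
    ext p; simp
  rw [this]
  refine Finset.measurableSet_biInter _ fun i _ => ?_
  have hc : Continuous fun p : G × G => p.2 + c i • p.1 := by fun_prop
  exact hc.measurable (hA i)

theorem base (I : Finset ℤ) {D : Set G} (hD : MeasurableSet D) (h0 : ν D ≠ 0) :
    ν.prod ν {p : G × G | ∀ i ∈ I, p.2 + i • p.1 ∈ D} ≠ 0 := by
  have := openPos ν
  intro hz
  rw [Measure.measure_prod_null (meas_pat I (fun i => i) (A := fun _ => D) fun _ => hD)] at hz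
  have h1 := ev_ne_zero ν (𝓝 (0 : G)) I (fun i m => {g | g + i • m ∈ D}) (fun _ => D)
    (fun i _ => tend_base ν i hD) (fun h => h0 (measure_mono_null (t := {w | ∀ i ∈ I, w ∈ D}) (fun w hw _ _ => hw) h))
  refine Measure.measure_pos_of_mem_nhds ν h1 |>.ne' (measure_mono_null ?_ hz)
  intro m hm hm'
  exact hm hm'

theorem shear (k : ℤ) (I : Finset ℤ) {A : ℤ → Set G} (hA : ∀ i, MeasurableSet (A i))
    {E : Set G} (hE : MeasurableSet E) :
    ν.prod ν {p : G × G | p.2 + k • p.1 ∈ E ∧ ∀ i ∈ I, p.2 + i • p.1 ∈ A i} = 0 ↔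
      ∀ᵐ b ∂ν, b ∈ E → ν {m | ∀ i ∈ I, b + (i - k) • m ∈ A i} = 0 := by
  have hk : Continuous fun p : G × G => p.2 + k • p.1 := by fun_prop
  have h1 : MeasurePreserving (fun p : G × G => (p.1, p.2 + k • p.1)) (ν.prod ν) (ν.prod ν) :=
    MeasurePreserving.skew_product (g := fun m g => g + k • m) (MeasurePreserving.id ν)
      hk.measurable (Eventually.of_forall fun m => map_add_right_eq_self ν (k • m))
  have h2 := (Measure.measurePreserving_swap (μ := ν) (ν := ν)).comp h1
  have hm : MeasurableSet {q : G × G | q.1 ∈ E ∧ ∀ i ∈ I, q.1 + (i - k) • q.2 ∈ A i} :=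
    (measurable_fst hE).inter (measurable_swap (meas_pat I (fun i => i - k) hA))
  have e : {p : G × G | p.2 + k • p.1 ∈ E ∧ ∀ i ∈ I, p.2 + i • p.1 ∈ A i} =
      (Prod.swap ∘ fun p : G × G => (p.1, p.2 + k • p.1)) ⁻¹'
        {q : G × G | q.1 ∈ E ∧ ∀ i ∈ I, q.1 + (i - k) • q.2 ∈ A i} := by
    ext p
    have : ∀ i : ℤ, p.2 + k • p.1 + (i - k) • p.1 = p.2 + i • p.1 := fun i => by
      rw [sub_smul]; abel
    simp [this]
  rw [e, h2.measure_preimage hm.nullMeasurableSet, Measure.measure_prod_null hm]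
  refine eventually_congr (Eventually.of_forall fun b => ?_)
  by_cases hb : b ∈ E
  · simp [hb, Set.preimage]
  · simp [hb, Set.preimage]

theorem step {a : G} (ha : DenseRange fun n : ℤ => n • a) (k : ℤ) (I : Finset ℤ) (hk : k ∉ I)
    {A : ℤ → Set G} (hA : ∀ i, MeasurableSet (A i)) {D O : Set G} (hD : MeasurableSet D)
    (hO : IsOpen O) (hDO : D ⊆ closure O)
    (h : ν.prod ν {p : G × G | p.2 + k • p.1 ∈ D ∧ ∀ i ∈ I, p.2 + i • p.1 ∈ A i} ≠ 0) :
    ν.prod ν {p : G × G | p.2 + k • p.1 ∈ O ∧ ∀ i ∈ I, p.2 + i • p.1 ∈ A i} ≠ 0 := by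
  have := openPos ν
  rw [Ne, shear ν k I hA hD] at h
  rw [Ne, shear ν k I hA hO.measurableSet]
  intro hz
  refine h (Eventually.of_forall fun b hb => ?_)
  by_contra hb0
  have h1 := ev_ne_zero ν (𝓝 b) I (fun i b' => {m | b' + (i - k) • m ∈ A i})
    (fun i => {m | b + (i - k) • m ∈ A i})
    (fun i hi => tend_step ν ha (sub_ne_zero.2 fun e : i = k => hk (e ▸ hi)) b (hA i)) hb0
  obtain ⟨V, hV, hVo, hbV⟩ := eventually_nhds_iff.1 h1
  have hne : (V ∩ O).Nonempty := mem_closure_iff.1 (hDO hb) V hVo hbV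
  refine ((hVo.inter hO).measure_pos ν hne).ne' (measure_mono_null ?_ hz)
  intro x hx hx'
  exact hV x hx.1 (hx' hx.2)

theorem mixed {a : G} (ha : DenseRange fun n : ℤ => n • a) {D O : Set G} (hD : MeasurableSet D)
    (hO : IsOpen O) (hDO : D ⊆ closure O) (h0 : ν D ≠ 0) (J : Finset ℤ) :
    ∀ K : Finset ℤ, Disjoint J K →
      ν.prod ν {p : G × G | (∀ i ∈ J, p.2 + i • p.1 ∈ O) ∧ ∀ i ∈ K, p.2 + i • p.1 ∈ D} ≠ 0 := by
  classical
  induction J using Finset.induction_on with
  | empty =>
    intro K _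
    simpa using base ν K hD h0
  | insert k J hk ih =>
    intro K hK
    rw [Finset.disjoint_insert_left] at hK
    have h1 := ih (insert k K) (Finset.disjoint_insert_right.2 ⟨hk, hK.2⟩)
    have key : ∀ p : G × G, (∀ i ∈ J ∪ K, p.2 + i • p.1 ∈ (if i ∈ J then O else D)) ↔
        (∀ i ∈ J, p.2 + i • p.1 ∈ O) ∧ ∀ i ∈ K, p.2 + i • p.1 ∈ D := by
      intro p
      constructor
      · intro h
        refine ⟨fun i hi => ?_, fun i hi => ?_⟩
        · have := h i (Finset.mem_union_left _ hi)
          rwa [if_pos hi] at this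
        · have := h i (Finset.mem_union_right _ hi)
          rwa [if_neg (Finset.disjoint_right.1 hK.2 hi)] at this
      · intro h i hi
        by_cases hJ : i ∈ J
        · rw [if_pos hJ]; exact h.1 i hJ
        · rw [if_neg hJ]; exact h.2 i ((Finset.mem_union.1 hi).resolve_left hJ)
    have h2 := step ν ha k (J ∪ K) (by simp [hk, hK.1]) (A := fun i => if i ∈ J then O else D)
      (fun i => by
        by_cases hJ : i ∈ J
        · rw [if_pos hJ]; exact hO.measurableSet
        · rw [if_neg hJ]; exact hD) hD hO hDO (by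
        refine fun hz => h1 (measure_mono_null ?_ hz)
        intro p hp
        exact ⟨hp.2 k (Finset.mem_insert_self _ _),
          (key p).2 ⟨hp.1, fun i hi => hp.2 i (Finset.mem_insert_of_mem hi)⟩⟩)
    refine fun hz => h2 (measure_mono_null ?_ hz)
    intro p hp
    refine ⟨fun i hi => ?_, ((key p).1 hp.2).2⟩
    rcases Finset.mem_insert.1 hi with rfl | hi
    · exact hp.1
    · exact ((key p).1 hp.2).1 i hi

/-- Almost every point of the closure of an open set starts a progression inside the set. -/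
theorem key {a : G} (ha : DenseRange fun n : ℤ => n • a) {O : Set G} (hO : IsOpen O) (d : ℕ) :
    ∀ᵐ g ∂ν, g ∈ closure O → ∃ m : G, ∀ j : Fin d, g + ((j.val : ℤ) + 1) • m ∈ O := by
  have hopen : IsOpen {g : G | ∃ m : G, ∀ j : Fin d, g + ((j.val : ℤ) + 1) • m ∈ O} := by
    rw [ofPred_exists]
    refine isOpen_iUnion fun m => ?_
    rw [ofPred_forall]
    exact isOpen_iInter_of_finite fun j => hO.preimage (continuous_add_const _)
  by_contra h0
  have hD : MeasurableSet
      {g : G | ¬ (g ∈ closure O → ∃ m : G, ∀ j : Fin d, g + ((j.val : ℤ) + 1) • m ∈ O)} := by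
    have : {g : G | ¬ (g ∈ closure O → ∃ m : G, ∀ j : Fin d, g + ((j.val : ℤ) + 1) • m ∈ O)} =
        closure O \ {g : G | ∃ m : G, ∀ j : Fin d, g + ((j.val : ℤ) + 1) • m ∈ O} := by
      ext g; simp only [mem_ofPred_eq, Set.mem_sdiff, Classical.not_imp]
    rw [this]
    exact isClosed_closure.measurableSet.diff hopen.measurableSet
  have h1 := mixed ν ha hD hO (fun g hg => (Classical.not_imp.1 hg).1) h0 (Finset.Icc 1 (d : ℤ))
    {0} (by simp)
  obtain ⟨p, hp1, hp2⟩ := nonempty_of_measure_ne_zero h1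
  have h2 := hp2 0 (Finset.mem_singleton_self _)
  rw [zero_smul, add_zero] at h2
  refine (Classical.not_imp.1 h2).2 ⟨p.1, fun j => hp1 _ (Finset.mem_Icc.2 ⟨?_, ?_⟩)⟩
  · omega
  · have := j.2
    omega

end

end Pool.Agent.Work.MP_41a91a_an.Hedge
end

-- merged part: Pool.Agent.Work.MP_41a91a_an.Hedge.Main
section
set_option autoImplicit false
set_option linter.unusedSectionVars false

namespace Pool.Agent.Work.MP_41a91a_an.Hedge

open Set Filter Topology MeasureTheory
open scoped Uniformity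

theorem distal_step {X Y : Type} [TopologicalSpace X] [T2Space X] [UniformSpace Y]
    [CompactSpace Y] [T2Space Y] {S : Y ≃ₜ Y} {T : X ≃ₜ X} {f : Y → X} (hf : Eqv S T f)
    (hp : IsDistalExt S f) (d : ℕ) {z : Fin d → Y}
    (hz : IsMinimalPoint (tau T d) fun j => f (z j)) : IsMinimalPoint (tau S d) z := by
  refine distal_lift (hf.pi d) (fun u hu p p' hfp hup => ?_) hz
  funext j
  by_contra hne
  obtain ⟨ε, hε, h⟩ := hp _ _ (congrFun hfp j) hne
  have hc : Continuous fun e : En (Fin d → Y) => (e.ap p j, e.ap p' j) :=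
    ((continuous_apply j).comp (En.cont_ap _)).prodMk ((continuous_apply j).comp (En.cont_ap _))
  obtain ⟨_, hn, ⟨n, rfl⟩⟩ := mem_closure_iff.1 hu _ (isOpen_interior.preimage hc) (by
    show (u.ap p j, u.ap p' j) ∈ interior ε
    rw [hup]
    exact refl_mem_uniformity (interior_mem_uniformity hε))
  have hn' : ((S ^ (((j.val : ℤ) + 1) * n)) (p j), (S ^ (((j.val : ℤ) + 1) * n)) (p' j)) ∈ ε := by
    have := interior_subset hn
    simpa only [En.of_ap, tau_zpow] using this
  exact h _ hn'

section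
variable {Y G : Type} [MetricSpace Y] [CompactSpace Y] [AddCommGroup G] [MetricSpace G]
  [IsTopologicalAddGroup G] [CompactSpace G] {S : Y ≃ₜ Y} {a : G} {π : Y → G}

theorem rot_zpow (a : G) (n : ℤ) (g : G) : (Homeomorph.addRight a ^ n) g = g + n • a := by
  induction n using Int.induction_on generalizing g with
  | zero => simp
  | succ n ih =>
    rw [zpow_add_apply, zpow_one, ih, add_smul, one_smul]
    show g + a + _ = _
    abel
  | pred n ih =>
    rw [sub_eq_add_neg, zpow_add_apply, ih, add_smul]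
    have : (Homeomorph.addRight a ^ (-1 : ℤ)) g = g - a := by
      apply (Homeomorph.addRight a).injective
      rw [zpow_neg_one]
      simp
    rw [this, neg_smul, neg_smul, one_smul]
    abel

theorem fac_zpow (hπ : IsFactorMap S (Homeomorph.addRight a) π) (n : ℤ) (y : Y) :
    π ((S ^ n) y) = π y + n • a := by
  rw [hπ.eqv.2, rot_zpow]

theorem dense_gen (hS : IsMinimalSystem S) (hπ : IsFactorMap S (Homeomorph.addRight a) π) :
    DenseRange fun n : ℤ => n • a := by
  obtain ⟨y, hy⟩ := hπ.2.1 0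
  have h := hπ.2.1.denseRange.comp (f := fun n : ℤ => (S ^ n) y) (hS y) hπ.1
  have e : (π ∘ fun n : ℤ => (S ^ n) y) = fun n : ℤ => n • a := by
    funext n
    rw [Function.comp_apply, fac_zpow hπ, hy, zero_add]
  rwa [e] at h

/-- The points of the group whose whole fibre lies in `U`. -/
def core (π : Y → G) (U : Set Y) : Set G := {h | ∀ y, π y = h → y ∈ U}

theorem core_open (hc : Continuous π) {U : Set Y} (hU : IsOpen U) : IsOpen (core π U) := by
  have : core π U = (π '' Uᶜ)ᶜ := by
    ext h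
    constructor
    · rintro hh ⟨y, hy, e⟩
      exact hy (hh y e)
    · intro hh y e
      by_contra hy
      exact hh ⟨y, hy, e⟩
  rw [this]
  exact (hc.isClosedMap _ hU.isClosed_compl).isOpen_compl

theorem mem_closure_core (hS : IsMinimalSystem S) (hπ : IsFactorMap S (Homeomorph.addRight a) π)
    (h1 : ∃ y₀, ∀ y, π y = π y₀ → y = y₀) {U : Set Y} (hU : IsOpen U) {y : Y} (hy : y ∈ U) :
    π y ∈ closure (core π U) := by
  obtain ⟨y₀, h1⟩ := h1
  rw [mem_closure_iff]
  intro W hW hyW
  obtain ⟨_, hn, ⟨n, rfl⟩⟩ := (hS y₀).inter_open_nonempty _ (hU.inter (hW.preimage hπ.1))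
    ⟨y, hy, hyW⟩
  refine ⟨π ((S ^ n) y₀), hn.2, fun y' e => ?_⟩
  have h2 : (S ^ (-n)) y' = y₀ := by
    apply h1
    rw [fac_zpow hπ, e, fac_zpow hπ, neg_smul]
    abel
  have h3 : y' = (S ^ n) y₀ := by
    rw [← h2, ← zpow_add_apply, add_neg_cancel, zpow_zero]
    rfl
  rw [h3]
  exact hn.1

theorem orb_form (hπ : IsFactorMap S (Homeomorph.addRight a) π) (d : ℕ) (y : Y) {w : Fin d → Y}
    (hw : w ∈ orbitClosure (tau S d) fun _ => y) :
    ∃ m : G, ∀ j : Fin d, π (w j) = π y + ((j.val : ℤ) + 1) • m := by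
  have hc : Continuous fun (m : G) (j : Fin d) => π y + ((j.val : ℤ) + 1) • m := by fun_prop
  have hp : Continuous fun (w : Fin d → Y) (j : Fin d) => π (w j) :=
    continuous_pi fun j => hπ.1.comp (continuous_apply j)
  have := closure_minimal (s := range fun n : ℤ => (tau S d ^ n) fun _ => y)
    (t := (fun (w : Fin d → Y) (j : Fin d) => π (w j)) ⁻¹'
      range fun (m : G) (j : Fin d) => π y + ((j.val : ℤ) + 1) • m) (by
      rintro _ ⟨n, rfl⟩
      refine ⟨n • a, funext fun j => ?_⟩
      show π y + ((j.val : ℤ) + 1) • n • a = π (((tau S d ^ n) fun _ => y) j)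
      rw [tau_zpow, fac_zpow hπ, mul_smul]) ((isCompact_range hc).isClosed.preimage hp) hw
  obtain ⟨m, hm⟩ := this
  exact ⟨m, fun j => (congrFun hm j).symm⟩

theorem minimal_of_good (hS : IsMinimalSystem S) (hπ : IsFactorMap S (Homeomorph.addRight a) π)
    (d : ℕ) {y : Y} (hy : ∀ U ∈ TopologicalSpace.countableBasis Y, y ∈ U →
      ∃ m : G, ∀ j : Fin d, π y + ((j.val : ℤ) + 1) • m ∈ core π U) :
    IsMinimalPoint (tau S d) fun _ => y := by
  refine minimal_of fun w hw => ?_
  obtain ⟨m', hm'⟩ := orb_form hπ d y hw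
  refine Metric.mem_closure_iff.2 fun ε hε => ?_
  obtain ⟨U, hU, hyU, hUb⟩ := (TopologicalSpace.isBasis_countableBasis Y).exists_subset_of_mem_open
    (Metric.mem_ball_self (x := y) hε) Metric.isOpen_ball
  have hUo := TopologicalSpace.isOpen_of_mem_countableBasis hU
  obtain ⟨m, hm⟩ := hy U hU hyU
  have hV : IsOpen {t : G | ∀ j : Fin d, π y + ((j.val : ℤ) + 1) • (m' + t) ∈ core π U} := by
    rw [ofPred_forall]
    refine isOpen_iInter_of_finite fun j => ?_
    have hc : Continuous fun t : G => π y + ((j.val : ℤ) + 1) • (m' + t) := by fun_prop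
    exact (core_open hπ.1 hUo).preimage hc
  obtain ⟨n, hn⟩ := (dense_gen hS hπ).exists_mem_open hV ⟨m - m', by
    intro j
    rw [add_sub_cancel]
    exact hm j⟩
  refine ⟨(tau S d ^ n) w, ⟨n, rfl⟩, (dist_pi_lt_iff hε).2 fun j => ?_⟩
  have h2 : ((tau S d ^ n) w) j ∈ U := by
    refine hn j _ ?_
    rw [tau_zpow, fac_zpow hπ, hm', mul_smul, smul_add, add_assoc]
  have := hUb h2
  rwa [Metric.mem_ball, dist_comm] at this

theorem ae_base [MeasurableSpace G] [BorelSpace G] (ν : Measure G) [IsProbabilityMeasure ν]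
    [ν.IsAddLeftInvariant] (hS : IsMinimalSystem S)
    (hπ : IsFactorMap S (Homeomorph.addRight a) π) (h1 : ∃ y₀, ∀ y, π y = π y₀ → y = y₀) :
    ∀ᵐ g ∂ν, ∀ y, π y = g → ∀ d : ℕ, IsMinimalPoint (tau S d) fun _ => y := by
  have h : ∀ᵐ g ∂ν, ∀ d : ℕ, ∀ U ∈ TopologicalSpace.countableBasis Y, g ∈ closure (core π U) →
      ∃ m : G, ∀ j : Fin d, g + ((j.val : ℤ) + 1) • m ∈ core π U := by
    rw [ae_all_iff]
    intro d
    rw [ae_ball_iff (TopologicalSpace.countable_countableBasis Y)]
    intro U hU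
    exact key ν (dense_gen hS hπ)
      (core_open hπ.1 (TopologicalSpace.isOpen_of_mem_countableBasis hU)) d
  filter_upwards [h] with g hg y hy d
  refine minimal_of_good hS hπ d fun U hU hyU => ?_
  rw [hy]
  exact hg d U hU (hy ▸ mem_closure_core hS hπ h1
    (TopologicalSpace.isOpen_of_mem_countableBasis hU) hyU)

theorem main {X : Type} [MetricSpace X] [CompactSpace X] {T : X ≃ₜ X} {φ : X → Y}
    (hS : IsMinimalSystem S) (hφ : IsFactorMap T S φ) (hd : IsDistalExt T φ)
    (hπ : IsFactorMap S (Homeomorph.addRight a) π) (h1 : ∃ y₀, ∀ y, π y = π y₀ → y = y₀)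
    [MeasurableSpace X] [BorelSpace X] (μ : Measure X) [IsProbabilityMeasure μ]
    (hμ : MeasurePreserving T μ μ) :
    ∀ᵐ x ∂μ, ∀ x', π (φ x') = π (φ x) → ∀ d : ℕ, IsMinimalPoint (tau T d) fun _ => x' := by
  borelize G
  have hm : Measurable (π ∘ φ) := (hπ.1.comp hφ.1).measurable
  have := Measure.isProbabilityMeasure_map (μ := μ) hm.aemeasurable
  have hinv : (μ.map (π ∘ φ)).map (· + a) = μ.map (π ∘ φ) := by
    rw [Measure.map_map (measurable_add_const a) hm]
    have e : (fun g => g + a) ∘ π ∘ φ = (π ∘ φ) ∘ T := by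
      funext x
      show π (φ x) + a = π (φ (T x))
      rw [hφ.2.2, hπ.2.2]
      rfl
    rw [e, ← Measure.map_map hm hμ.measurable, hμ.map_eq]
  have := inv_of_dense (dense_gen hS hπ) _ hinv
  have h := ae_of_ae_map hm.aemeasurable (ae_base (μ.map (π ∘ φ)) hS hπ h1)
  filter_upwards [h] with x hx x' hx' d
  exact distal_step hφ.eqv hd d (hx (φ x') hx' d)

end

end Pool.Agent.Work.MP_41a91a_an.Hedge
end
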